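import Mathlib

set_option autoImplicit false

/-! Integer points on the conics `s (s - 1) = A y ^ 2 - 2 y + c`: three of them are never close together. -/

namespace Pool.Agent.X4.DS

/-- Real version: the three point inequality. -/
theorem three_real {a c y1 y2 y3 u1 u2 u3 D : ℝ} (ha : 2 ≤ a) (hc : 1 ≤ c) (hy1 : 1 ≤ y1)
    (h12 : y1 < y2) (h23 : y2 < y3) (hu1 : 1 ≤ u1) (hu2 : 1 ≤ u2) (hu3 : 1 ≤ u3)
    (e1 : a * u1 ^ 2 = (2 * a * y1 - 2) ^ 2 + (4 * a * c + a - 4))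
    (e2 : a * u2 ^ 2 = (2 * a * y2 - 2) ^ 2 + (4 * a * c + a - 4))
    (e3 : a * u3 ^ 2 = (2 * a * y3 - 2) ^ 2 + (4 * a * c + a - 4))
    (hD : 2 * D = (y2 - y1) * (u3 - u1) - (y3 - y1) * (u2 - u1)) :
    0 < D ∧ (1 ≤ D → y1 ^ 3 ≤ (4 * c + 1) * (y3 - y1) ^ 3) := by
  set G : ℝ := 4 * a * c + a - 4 with hG
  have hac : 2 * 1 ≤ a * c := mul_le_mul ha hc (by norm_num) (by linarith)
  have hG0 : 0 < G := by rw [hG]; linarith
  obtain ⟨r, hr0, hr2⟩ : ∃ r : ℝ, 0 < r ∧ r ^ 2 = a := ⟨Real.sqrt a, Real.sqrt_pos.mpr (by linarith),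
    Real.sq_sqrt (by linarith)⟩
  have hr1 : 1 ≤ r := (one_le_sq_iff₀ hr0.le).mp (by linarith)
  obtain ⟨v1, hv1⟩ : ∃ v1, v1 = 2 * a * y1 - 2 := ⟨_, rfl⟩
  obtain ⟨v2, hv2⟩ : ∃ v2, v2 = 2 * a * y2 - 2 := ⟨_, rfl⟩
  obtain ⟨v3, hv3⟩ : ∃ v3, v3 = 2 * a * y3 - 2 := ⟨_, rfl⟩
  rw [← hv1] at e1
  rw [← hv2] at e2
  rw [← hv3] at e3
  have hay : 2 * 1 ≤ a * y1 := mul_le_mul ha hy1 (by norm_num) (by linarith)
  have apos : 0 < a := by linarith
  have w1 : a * y1 ≤ v1 := by rw [hv1]; linarith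
  have w12 : v1 < v2 := by
    have := mul_lt_mul_of_pos_left h12 apos
    rw [hv1, hv2]; linarith
  have w23 : v2 < v3 := by
    have := mul_lt_mul_of_pos_left h23 apos
    rw [hv2, hv3]; linarith
  have w0 : 0 < v1 := by linarith
  have lt1 : v1 < r * u1 := by
    apply lt_of_pow_lt_pow_left₀ 2 (by positivity)
    rw [mul_pow, hr2]; linarith
  have lt2 : v2 < r * u2 := by
    apply lt_of_pow_lt_pow_left₀ 2 (by positivity)
    rw [mul_pow, hr2]; linarith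
  have lt3 : v3 < r * u3 := by
    apply lt_of_pow_lt_pow_left₀ 2 (by positivity)
    rw [mul_pow, hr2]; linarith
  have u12 : u1 < u2 := by
    apply lt_of_pow_lt_pow_left₀ 2 (by positivity)
    have hv : v1 ^ 2 < v2 ^ 2 := pow_lt_pow_left₀ w12 w0.le (by norm_num)
    have h3 : a * u1 ^ 2 < a * u2 ^ 2 := by linarith
    exact lt_of_mul_lt_mul_left h3 apos.le
  have u23 : u2 < u3 := by
    apply lt_of_pow_lt_pow_left₀ 2 (by positivity)
    have hv : v2 ^ 2 < v3 ^ 2 := pow_lt_pow_left₀ w23 (by linarith) (by norm_num)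
    have h3 : a * u2 ^ 2 < a * u3 ^ 2 := by linarith
    exact lt_of_mul_lt_mul_left h3 apos.le
  have d1 : (r * u1 - v1) * (2 * v1) ≤ G := by
    have : (r * u1 - v1) * (r * u1 + v1) = G := by
      have : (r * u1 - v1) * (r * u1 + v1) = r ^ 2 * u1 ^ 2 - v1 ^ 2 := by ring
      rw [this, hr2]; linarith
    rw [← this]
    exact mul_le_mul_of_nonneg_left (by linarith) (by linarith)
  have d2 : (r * u2 - v2) * (2 * v2) ≤ G := by
    have : (r * u2 - v2) * (r * u2 + v2) = G := by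
      have : (r * u2 - v2) * (r * u2 + v2) = r ^ 2 * u2 ^ 2 - v2 ^ 2 := by ring
      rw [this, hr2]; linarith
    rw [← this]
    exact mul_le_mul_of_nonneg_left (by linarith) (by linarith)
  have d3 : (r * u3 - v3) * (2 * v3) ≤ G := by
    have : (r * u3 - v3) * (r * u3 + v3) = G := by
      have : (r * u3 - v3) * (r * u3 + v3) = r ^ 2 * u3 ^ 2 - v3 ^ 2 := by ring
      rw [this, hr2]; linarith
    rw [← this]
    exact mul_le_mul_of_nonneg_left (by linarith) (by linarith)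
  have d2' : (r * u2 - v2) * (2 * v1) ≤ G :=
    (mul_le_mul_of_nonneg_left (by linarith) (by linarith)).trans d2
  have d3' : (r * u3 - v3) * (2 * v1) ≤ G :=
    (mul_le_mul_of_nonneg_left (by linarith) (by linarith)).trans d3
  obtain ⟨P, hP⟩ : ∃ P, P * (u1 + u2) = v1 + v2 := ⟨(v1 + v2) / (u1 + u2), by field_simp⟩
  obtain ⟨Q, hQ⟩ : ∃ Q, Q * (u2 + u3) = v2 + v3 := ⟨(v2 + v3) / (u2 + u3), by field_simp⟩
  obtain ⟨R, hR⟩ : ∃ R, R * (u1 + u3) = v1 + v3 := ⟨(v1 + v3) / (u1 + u3), by field_simp⟩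
  have hP0 : 0 < P := by
    by_contra h; push Not at h
    have := mul_nonpos_of_nonpos_of_nonneg h (by linarith : 0 ≤ u1 + u2)
    linarith
  have hQ0 : 0 < Q := by
    by_contra h; push Not at h
    have := mul_nonpos_of_nonpos_of_nonneg h (by linarith : 0 ≤ u2 + u3)
    linarith
  have hPr : P < r := by
    by_contra h; push Not at h
    have := mul_le_mul_of_nonneg_right h (by linarith : 0 ≤ u1 + u2)
    rw [hP, mul_add] at this
    linarith
  have hQr : Q < r := by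
    by_contra h; push Not at h
    have := mul_le_mul_of_nonneg_right h (by linarith : 0 ≤ u2 + u3)
    rw [hQ, mul_add] at this
    linarith
  have a0 : a ≠ 0 := by linarith
  have s21 : u2 - u1 = 2 * (y2 - y1) * P := by
    have h1 : (u2 - u1) * (u1 + u2) = (2 * (y2 - y1) * P) * (u1 + u2) := by
      have : a * ((u2 - u1) * (u1 + u2)) = a * ((2 * (y2 - y1) * P) * (u1 + u2)) := by
        have e : (2 * (y2 - y1) * P) * (u1 + u2) = 2 * (y2 - y1) * (v1 + v2) := by rw [← hP]; ring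
        rw [e, hv1, hv2]
        rw [hv1] at e1
        rw [hv2] at e2
        linear_combination e2 - e1
      exact mul_left_cancel₀ a0 this
    exact mul_right_cancel₀ (by linarith : u1 + u2 ≠ 0) h1
  have s32 : u3 - u2 = 2 * (y3 - y2) * Q := by
    have h1 : (u3 - u2) * (u2 + u3) = (2 * (y3 - y2) * Q) * (u2 + u3) := by
      have : a * ((u3 - u2) * (u2 + u3)) = a * ((2 * (y3 - y2) * Q) * (u2 + u3)) := by
        have e : (2 * (y3 - y2) * Q) * (u2 + u3) = 2 * (y3 - y2) * (v2 + v3) := by rw [← hQ]; ring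
        rw [e, hv2, hv3]
        rw [hv2] at e2
        rw [hv3] at e3
        linear_combination e3 - e2
      exact mul_left_cancel₀ a0 this
    exact mul_right_cancel₀ (by linarith : u2 + u3 ≠ 0) h1
  have s31 : u3 - u1 = 2 * (y3 - y1) * R := by
    have h1 : (u3 - u1) * (u1 + u3) = (2 * (y3 - y1) * R) * (u1 + u3) := by
      have : a * ((u3 - u1) * (u1 + u3)) = a * ((2 * (y3 - y1) * R) * (u1 + u3)) := by
        have e : (2 * (y3 - y1) * R) * (u1 + u3) = 2 * (y3 - y1) * (v1 + v3) := by rw [← hR]; ring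
        rw [e, hv1, hv3]
        rw [hv1] at e1
        rw [hv3] at e3
        linear_combination e3 - e1
      exact mul_left_cancel₀ a0 this
    exact mul_right_cancel₀ (by linarith : u1 + u3 ≠ 0) h1
  have key : (R - P) * (u1 + u3) = 2 * (y3 - y2) * (a - P * Q) := by
    have hv : v3 - v2 = 2 * a * (y3 - y2) := by rw [hv2, hv3]; ring
    linear_combination hR - hP - P * s32 + hv
  have hDeq : D = (y2 - y1) * (y3 - y1) * (R - P) := by
    have : 2 * D = 2 * ((y2 - y1) * (y3 - y1) * (R - P)) := by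
      rw [hD]; linear_combination (y2 - y1) * s31 - (y3 - y1) * s21
    linarith
  have hDu : D * (u1 + u3) = 2 * ((y2 - y1) * (y3 - y1) * (y3 - y2)) * (a - P * Q) := by
    rw [hDeq]; linear_combination (y2 - y1) * (y3 - y1) * key
  have hPQ : P * Q < a := by
    rw [← hr2, sq]
    exact mul_lt_mul'' hPr hQr hP0.le hQ0.le
  have hpos : 0 < (y2 - y1) * (y3 - y1) * (y3 - y2) := by
    have h1 : 0 < y2 - y1 := by linarith
    have h2 : 0 < y3 - y1 := by linarith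
    have h3 : 0 < y3 - y2 := by linarith
    positivity
  have hD0 : 0 < D := by
    by_contra h
    push Not at h
    have h1 : D * (u1 + u3) ≤ 0 := mul_nonpos_of_nonpos_of_nonneg h (by linarith)
    have h2 : 0 < 2 * ((y2 - y1) * (y3 - y1) * (y3 - y2)) * (a - P * Q) :=
      mul_pos (by linarith) (by linarith)
    linarith
  refine ⟨hD0, fun hD1 => ?_⟩
  set H := y3 - y1 with hH
  have hH0 : 0 < H := by rw [hH]; linarith
  have hprod : (y2 - y1) * (y3 - y1) * (y3 - y2) ≤ H ^ 3 := by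
    have h1 : y2 - y1 ≤ H := by rw [hH]; linarith
    have h2 : y3 - y2 ≤ H := by rw [hH]; linarith
    have h3 : (y2 - y1) * (y3 - y2) ≤ H * H := mul_le_mul h1 h2 (by linarith) hH0.le
    calc (y2 - y1) * (y3 - y1) * (y3 - y2) = (y2 - y1) * (y3 - y2) * H := by rw [hH]; ring
      _ ≤ H * H * H := mul_le_mul_of_nonneg_right h3 hH0.le
      _ = H ^ 3 := by ring
  -- r - P and r - Q
  have rP : (r - P) * (2 * u1 * v1) ≤ G := by
    have h1 : (r - P) * (u1 + u2) = (r * u1 - v1) + (r * u2 - v2) := by linear_combination -hP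
    have h2 : (r - P) * (2 * u1) ≤ (r - P) * (u1 + u2) :=
      mul_le_mul_of_nonneg_left (by linarith) (by linarith)
    have h3 : (r - P) * (2 * u1) * v1 ≤ ((r * u1 - v1) + (r * u2 - v2)) * v1 := by
      rw [← h1]; exact mul_le_mul_of_nonneg_right h2 w0.le
    have h4 : (r - P) * (2 * u1 * v1) = (r - P) * (2 * u1) * v1 := by ring
    rw [h4]
    linarith
  have rQ : (r - Q) * (2 * u1 * v1) ≤ G := by
    have h1 : (r - Q) * (u2 + u3) = (r * u2 - v2) + (r * u3 - v3) := by linear_combination -hQ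
    have h2 : (r - Q) * (2 * u1) ≤ (r - Q) * (u2 + u3) :=
      mul_le_mul_of_nonneg_left (by linarith) (by linarith)
    have h3 : (r - Q) * (2 * u1) * v1 ≤ ((r * u2 - v2) + (r * u3 - v3)) * v1 := by
      rw [← h1]; exact mul_le_mul_of_nonneg_right h2 w0.le
    have h4 : (r - Q) * (2 * u1 * v1) = (r - Q) * (2 * u1) * v1 := by ring
    rw [h4]
    linarith
  have aPQ : (a - P * Q) * (u1 * v1) ≤ r * G := by
    have h1 : a - P * Q ≤ r * (r - P) + r * (r - Q) := by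
      have : a - P * Q = r * (r - Q) + Q * (r - P) := by rw [← hr2]; ring
      rw [this]
      have : Q * (r - P) ≤ r * (r - P) := mul_le_mul_of_nonneg_right hQr.le (by linarith)
      linarith
    have h2 : 0 ≤ u1 * v1 := by positivity
    have h3 := mul_le_mul_of_nonneg_right h1 h2
    have h4 : (r * (r - P) + r * (r - Q)) * (u1 * v1) =
        r * (((r - P) * (2 * u1 * v1) + (r - Q) * (2 * u1 * v1)) / 2) := by ring
    rw [h4] at h3
    refine h3.trans (mul_le_mul_of_nonneg_left (by linarith) hr0.le)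
  have main : u1 ^ 2 * v1 ≤ H ^ 3 * (r * G) := by
    have h1 : 2 * u1 ≤ D * (u1 + u3) := by
      have := mul_le_mul_of_nonneg_right hD1 (by linarith : 0 ≤ u1 + u3)
      linarith
    have h2 : D * (u1 + u3) ≤ 2 * H ^ 3 * (a - P * Q) := by
      rw [hDu]
      exact mul_le_mul_of_nonneg_right (by linarith) (by linarith)
    have h3 : u1 ≤ H ^ 3 * (a - P * Q) := by linarith
    have h4 : u1 * (u1 * v1) ≤ H ^ 3 * (a - P * Q) * (u1 * v1) :=
      mul_le_mul_of_nonneg_right h3 (by positivity)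
    have h5 : H ^ 3 * (a - P * Q) * (u1 * v1) = H ^ 3 * ((a - P * Q) * (u1 * v1)) := by ring
    have h6 : H ^ 3 * ((a - P * Q) * (u1 * v1)) ≤ H ^ 3 * (r * G) :=
      mul_le_mul_of_nonneg_left aPQ (by positivity)
    calc u1 ^ 2 * v1 = u1 * (u1 * v1) := by ring
      _ ≤ _ := by rw [h5] at h4; exact h4.trans h6
  have m1 : v1 ^ 3 ≤ r ^ 2 * (u1 ^ 2 * v1) := by
    have h1 : v1 ^ 2 ≤ (r * u1) ^ 2 := by
      apply pow_le_pow_left₀ w0.le lt1.le
    calc v1 ^ 3 = v1 ^ 2 * v1 := by ring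
      _ ≤ (r * u1) ^ 2 * v1 := mul_le_mul_of_nonneg_right h1 w0.le
      _ = _ := by ring
  have m2 : v1 ^ 3 ≤ H ^ 3 * (r ^ 3 * G) := by
    calc v1 ^ 3 ≤ r ^ 2 * (u1 ^ 2 * v1) := m1
      _ ≤ r ^ 2 * (H ^ 3 * (r * G)) := mul_le_mul_of_nonneg_left main (by positivity)
      _ = _ := by ring
  have m3 : r ^ 3 * G ≤ a ^ 3 * (4 * c + 1) := by
    have h1 : r ^ 3 ≤ a ^ 2 := by
      rw [← hr2]
      calc r ^ 3 = r ^ 3 * 1 := by ring
        _ ≤ r ^ 3 * r := mul_le_mul_of_nonneg_left hr1 (by positivity)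
        _ = _ := by ring
    have h2 : G ≤ a * (4 * c + 1) := by rw [hG]; linarith
    calc r ^ 3 * G ≤ a ^ 2 * (a * (4 * c + 1)) := mul_le_mul h1 h2 hG0.le (by positivity)
      _ = _ := by ring
  have m4 : (a * y1) ^ 3 ≤ v1 ^ 3 := pow_le_pow_left₀ (by positivity) w1 3
  have m5 : a ^ 3 * y1 ^ 3 ≤ a ^ 3 * ((4 * c + 1) * H ^ 3) := by
    calc a ^ 3 * y1 ^ 3 = (a * y1) ^ 3 := by ring
      _ ≤ v1 ^ 3 := m4
      _ ≤ H ^ 3 * (r ^ 3 * G) := m2
      _ ≤ H ^ 3 * (a ^ 3 * (4 * c + 1)) := mul_le_mul_of_nonneg_left m3 (by positivity)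
      _ = _ := by ring
  exact le_of_mul_le_mul_left m5 (by positivity)

theorem three {A c y1 y2 y3 s1 s2 s3 : ℤ} (hA : 2 ≤ A) (hc : 1 ≤ c) (hy1 : 1 ≤ y1)
    (h12 : y1 < y2) (h23 : y2 < y3) (hs1 : 1 ≤ s1) (hs2 : 1 ≤ s2) (hs3 : 1 ≤ s3)
    (e1 : s1 * (s1 - 1) = A * y1 ^ 2 - 2 * y1 + c)
    (e2 : s2 * (s2 - 1) = A * y2 ^ 2 - 2 * y2 + c)
    (e3 : s3 * (s3 - 1) = A * y3 ^ 2 - 2 * y3 + c) :
    y1 ^ 3 ≤ (4 * c + 1) * (y3 - y1) ^ 3 := by
  have f1 : (s1 : ℝ) * (s1 - 1) = A * (y1 : ℝ) ^ 2 - 2 * y1 + c := by exact_mod_cast e1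
  have f2 : (s2 : ℝ) * (s2 - 1) = A * (y2 : ℝ) ^ 2 - 2 * y2 + c := by exact_mod_cast e2
  have f3 : (s3 : ℝ) * (s3 - 1) = A * (y3 : ℝ) ^ 2 - 2 * y3 + c := by exact_mod_cast e3
  have g1 : (1 : ℝ) ≤ s1 := by exact_mod_cast hs1
  have g2 : (1 : ℝ) ≤ s2 := by exact_mod_cast hs2
  have g3 : (1 : ℝ) ≤ s3 := by exact_mod_cast hs3
  have h := three_real (a := (A : ℝ)) (c := (c : ℝ)) (y1 := (y1 : ℝ)) (y2 := (y2 : ℝ))
    (y3 := (y3 : ℝ)) (u1 := 2 * s1 - 1) (u2 := 2 * s2 - 1) (u3 := 2 * s3 - 1)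
    (D := (((y2 - y1) * (s3 - s1) - (y3 - y1) * (s2 - s1) : ℤ) : ℝ))
    (by exact_mod_cast hA) (by exact_mod_cast hc) (by exact_mod_cast hy1) (by exact_mod_cast h12)
    (by exact_mod_cast h23) (by linarith) (by linarith) (by linarith)
    (by linear_combination 4 * A * f1) (by linear_combination 4 * A * f2)
    (by linear_combination 4 * A * f3) (by push_cast; ring)
  have h1 : 0 < (y2 - y1) * (s3 - s1) - (y3 - y1) * (s2 - s1) := by exact_mod_cast h.1
  have h2 := h.2 (by exact_mod_cast h1)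
  exact_mod_cast h2

theorem count {A c : ℤ} (hA : 2 ≤ A) (hc : 1 ≤ c) (g K : ℕ) (hg : 4 * c + 1 ≤ (g : ℤ) ^ 3)
    (Y : Finset ℕ) (h0 : ∀ y ∈ Y, 1 ≤ y) (hK : ∀ y ∈ Y, Nat.log 2 y < K)
    (h : ∀ y ∈ Y, ∃ s : ℤ, 1 ≤ s ∧ s * (s - 1) = A * (y : ℤ) ^ 2 - 2 * y + c) :
    Y.card ≤ 2 * (K * g) := by
  classical
  have g0 : 0 < g := by
    rcases Nat.eq_zero_or_pos g with h1 | h1
    · subst h1; norm_num at hg; omega
    · exact h1
  set f : ℕ → ℕ × ℕ := fun y => (Nat.log 2 y, (y - 2 ^ Nat.log 2 y) * g / 2 ^ Nat.log 2 y) with hf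
  have key : ∀ y1 ∈ Y, ∀ y2 ∈ Y, ∀ y3 ∈ Y, f y1 = f y3 → y1 < y2 → y2 < y3 → False := by
    intro y1 m1 y2 m2 y3 m3 h13 l12 l23
    simp only [hf, Prod.mk.injEq] at h13
    obtain ⟨q1, q2⟩ := h13
    obtain ⟨j, hj⟩ : ∃ j, j = Nat.log 2 y1 := ⟨_, rfl⟩
    rw [← q1, ← hj] at q2
    have p1 : 2 ^ j ≤ y1 := by
      rw [hj]; exact Nat.pow_log_le_self 2 (by have := h0 y1 m1; omega)
    have p3 : 2 ^ j ≤ y3 := by omega
    have pj : 0 < 2 ^ j := by positivity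
    obtain ⟨t1, ht1⟩ : ∃ t1, y1 = 2 ^ j + t1 := ⟨y1 - 2 ^ j, by omega⟩
    obtain ⟨t3, ht3⟩ : ∃ t3, y3 = 2 ^ j + t3 := ⟨y3 - 2 ^ j, by omega⟩
    have r1 : y1 - 2 ^ j = t1 := by omega
    have r3 : y3 - 2 ^ j = t3 := by omega
    rw [r1, r3] at q2
    have b1 : t1 * g / 2 ^ j * 2 ^ j ≤ t1 * g := Nat.div_mul_le_self _ _
    have b3 : t3 * g < t3 * g / 2 ^ j * 2 ^ j + 2 ^ j := by
      have := Nat.lt_div_mul_add (a := t3 * g) pj
      exact this
    rw [← q2] at b3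
    have hgap : (y3 - y1) * g < 2 ^ j := by
      have : y3 - y1 = t3 - t1 := by omega
      rw [this, Nat.sub_mul]
      omega
    obtain ⟨s1, hs1, e1⟩ := h y1 m1
    obtain ⟨s2, hs2, e2⟩ := h y2 m2
    obtain ⟨s3, hs3, e3⟩ := h y3 m3
    have T := three hA hc (by have := h0 y1 m1; exact_mod_cast this) (by exact_mod_cast l12)
      (by exact_mod_cast l23) hs1 hs2 hs3 e1 e2 e3
    have hz : ((y3 - y1 : ℕ) : ℤ) = (y3 : ℤ) - y1 := by
      rw [Nat.cast_sub (by omega)]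
    have z1 : ((y3 : ℤ) - y1) * g < 2 ^ j := by
      rw [← hz]; exact_mod_cast hgap
    have z0 : (0 : ℤ) ≤ (y3 : ℤ) - y1 := by rw [← hz]; positivity
    have z2 : (((y3 : ℤ) - y1) * g) ^ 3 < (2 ^ j : ℤ) ^ 3 :=
      pow_lt_pow_left₀ z1 (by positivity) (by norm_num)
    have z3 : ((2 : ℤ) ^ j) ^ 3 ≤ (y1 : ℤ) ^ 3 := by
      apply pow_le_pow_left₀ (by positivity)
      exact_mod_cast p1
    have z4 : (4 * c + 1) * ((y3 : ℤ) - y1) ^ 3 ≤ (g : ℤ) ^ 3 * ((y3 : ℤ) - y1) ^ 3 :=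
      mul_le_mul_of_nonneg_right hg (by positivity)
    have z5 : (((y3 : ℤ) - y1) * g) ^ 3 = (g : ℤ) ^ 3 * ((y3 : ℤ) - y1) ^ 3 := by ring
    linarith
  have hmaps : ∀ y ∈ Y, f y ∈ Finset.range K ×ˢ Finset.range g := by
    intro y hy
    simp only [hf, Finset.mem_product, Finset.mem_range]
    refine ⟨hK y hy, ?_⟩
    rw [Nat.div_lt_iff_lt_mul (by positivity)]
    have h1 : y < 2 ^ (Nat.log 2 y + 1) := Nat.lt_pow_succ_log_self (by norm_num) y
    rw [pow_succ] at h1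
    have h2 : y - 2 ^ Nat.log 2 y < 2 ^ Nat.log 2 y := by
      have : 0 < 2 ^ Nat.log 2 y := by positivity
      omega
    rw [mul_comm g]
    exact Nat.mul_lt_mul_of_pos_right h2 g0
  have h2 := Finset.card_le_mul_card_image_of_maps_to hmaps 2 (by
    intro b _
    by_contra hlt
    push Not at hlt
    rw [Finset.two_lt_card] at hlt
    obtain ⟨p, hp, q, hq, r, hr, pq, pr, qr⟩ := hlt
    rw [Finset.mem_filter] at hp hq hr
    have e1 : f p = f q := hp.2.trans hq.2.symm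
    have e2 : f p = f r := hp.2.trans hr.2.symm
    have e3 : f q = f r := hq.2.trans hr.2.symm
    rcases lt_or_gt_of_ne pq with a1 | a1 <;> rcases lt_or_gt_of_ne pr with a2 | a2 <;>
      rcases lt_or_gt_of_ne qr with a3 | a3
    · exact key p hp.1 q hq.1 r hr.1 e2 a1 a3
    · exact key p hp.1 r hr.1 q hq.1 e1 a2 a3
    · omega
    · exact key r hr.1 p hp.1 q hq.1 e3.symm a2 a1
    · exact key q hq.1 p hp.1 r hr.1 e3 a1 a2
    · omega
    · exact key q hq.1 r hr.1 p hp.1 e1.symm a3 a2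
    · exact key r hr.1 q hq.1 p hp.1 e2.symm a3 a1)
  rw [Finset.card_product, Finset.card_range, Finset.card_range] at h2
  exact h2

end Pool.Agent.X4.DS
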