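import Pool.Agent.X34.S2.Large
import Pool.Agent.X4.DS.Conic

set_option autoImplicit false

/-! Solutions with at most two distinct entries larger than `1`: the possible shapes and sizes. -/

namespace Pool.Agent.X4.DS

open Pool.Agent.X34.S2 Multiset

/-- The multiset with `a` copies of `x` and `b` copies of `y`. -/
def RR (a x b y : ℕ) : Multiset ℕ := Multiset.replicate a x + Multiset.replicate b y

theorem RR_prod (a x b y : ℕ) : (RR a x b y).prod = x ^ a * y ^ b := by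
  simp [RR]

theorem RR_card (a x b y : ℕ) : (RR a x b y).card = a + b := by
  simp [RR]

theorem RR_u (a x b y : ℕ) : u (RR a x b y) = a * (x - 1) + b * (y - 1) := by
  simp [RR, u]

theorem RR_v (a x b y : ℕ) : v (RR a x b y) = a * (x * (x - 1)) + b * (y * (y - 1)) := by
  simp [RR, v]

/-- A solution determines `n`. -/
theorem sol_unique {n m : ℕ} (hn : 1 ≤ n) (hm : 1 ≤ m) {Y : Multiset ℕ} (h1 : Y ∈ Sol n)
    (h2 : Y ∈ Sol m) : n = m := by
  have e1 := h1.2.2
  have e2 := h2.2.2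
  rw [e1] at e2
  obtain ⟨a, rfl⟩ : ∃ a, n = a + 1 := ⟨n - 1, by omega⟩
  obtain ⟨b, rfl⟩ : ∃ b, m = b + 1 := ⟨m - 1, by omega⟩
  have q1 : a + 1 + u Y - 1 = a + u Y := by omega
  have q2 : b + 1 + u Y - 1 = b + u Y := by omega
  rw [q1, q2] at e2
  rcases lt_trichotomy a b with h | h | h
  · have : (a + 1 + u Y) * (a + u Y) < (b + 1 + u Y) * (b + u Y) :=
      Nat.mul_lt_mul'' (by omega) (by omega)
    omega
  · rw [h]
  · have : (b + 1 + u Y) * (b + u Y) < (a + 1 + u Y) * (a + u Y) :=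
      Nat.mul_lt_mul'' (by omega) (by omega)
    omega

/-- The `n` of a solution. -/
noncomputable def nOf (Y : Multiset ℕ) : ℕ := sInf {n | 3 ≤ n ∧ Y ∈ Sol n}

theorem nOf_eq {n : ℕ} (hn : 3 ≤ n) {Y : Multiset ℕ} (h : Y ∈ Sol n) : nOf Y = n := by
  have h1 : {n | 3 ≤ n ∧ Y ∈ Sol n} = {n} := by
    ext m
    simp only [Set.mem_ofPred_eq, Set.mem_singleton_iff]
    constructor
    · rintro ⟨h2, h3⟩
      exact sol_unique (by omega) (by omega) h3 h
    · rintro rfl
      exact ⟨hn, h⟩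
  rw [nOf, h1]
  exact csInf_singleton n

/-- A multiset of integers at least two with at most two distinct entries. -/
theorem shape {Y : Multiset ℕ} (hB : Big Y) (h0 : Y ≠ 0) (h2 : Y.toFinset.card ≤ 2) :
    ∃ a x b y, Y = RR a x b y ∧ 1 ≤ b ∧ 2 ≤ y ∧ ((a = 0 ∧ x = 0) ∨ (1 ≤ a ∧ 2 ≤ x ∧ x < y)) := by
  classical
  obtain ⟨y, Y', hY, hmax⟩ := exists_max h0
  have hyY : y ∈ Y := by rw [hY]; exact Multiset.mem_cons_self _ _
  have hmax' : ∀ w ∈ Y, w ≤ y := by
    intro w hw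
    rw [hY] at hw
    rcases Multiset.mem_cons.mp hw with h | h
    · omega
    · exact hmax w h
  have hsplit := Multiset.filter_add_not (fun w => w = y) Y
  rw [Multiset.filter_eq'] at hsplit
  obtain ⟨Z, hZ⟩ : ∃ Z, Z = Y.filter (fun w => ¬ w = y) := ⟨_, rfl⟩
  rw [← hZ] at hsplit
  have hb : 1 ≤ Y.count y := Multiset.one_le_count_iff_mem.mpr hyY
  rcases Z.empty_or_exists_mem with hZ0 | ⟨x, hx⟩
  · refine ⟨0, 0, Y.count y, y, ?_, hb, hB y hyY, Or.inl ⟨rfl, rfl⟩⟩
    rw [RR, ← hsplit, hZ0]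
    simp
  · have hxY : x ∈ Y ∧ ¬ x = y := by
      rw [hZ] at hx
      exact Multiset.mem_filter.mp hx
    have hall : ∀ w ∈ Z, w = x := by
      intro w hw
      have hwY : w ∈ Y ∧ ¬ w = y := by
        rw [hZ] at hw
        exact Multiset.mem_filter.mp hw
      by_contra hne
      have h3 : ({w, x, y} : Finset ℕ) ⊆ Y.toFinset := by
        intro t ht
        simp only [Finset.mem_insert, Finset.mem_singleton] at ht
        rw [Multiset.mem_toFinset]
        rcases ht with rfl | rfl | rfl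
        · exact hwY.1
        · exact hxY.1
        · exact hyY
      have h4 := Finset.card_le_card h3
      rw [Finset.card_eq_three.mpr ⟨w, x, y, hne, hwY.2, hxY.2, rfl⟩] at h4
      omega
    have hZr : Z = Multiset.replicate Z.card x := Multiset.eq_replicate_card.mpr hall
    refine ⟨Z.card, x, Y.count y, y, ?_, hb, hB y hyY, Or.inr ⟨?_, hB x hxY.1, ?_⟩⟩
    · rw [RR, ← hZr]
      rw [add_comm, hsplit]
    · exact Multiset.card_pos.mpr (by rintro rfl; simp at hx)
    · have := hmax' x hxY.1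
      have := hxY.2
      omega

/-- The basic upper bound for the product. -/
theorem bnd {K n z : ℕ} {Y : Multiset ℕ} (hK : 6 ≤ K) (hn : 3 ≤ n) (hn2 : n < 2 * K ^ 80)
    (h : z ::ₘ Y ∈ Sol n) (hz : ∀ y ∈ Y, y ≤ z) (hc : Y.card ≤ K) :
    2 * Y.prod * z ≤ 36 * K ^ 162 + 12 * K ^ 81 * z := by
  obtain ⟨h1, h2, h3, h4⟩ := main_facts hn h
  have hU : u Y ≤ 2 * n * K := by
    rcases h4 with h5 | h5
    · calc u Y ≤ 4 * n := h5
        _ = 2 * n * 2 := by ring
        _ ≤ 2 * n * K := Nat.mul_le_mul_left _ (by omega)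
    · have h6 := u_le hz
      calc u Y ≤ Y.card * z := h6
        _ ≤ K * (2 * n) := Nat.mul_le_mul hc h5
        _ = 2 * n * K := by ring
  obtain ⟨b, hb⟩ : ∃ b, n = b + 2 := ⟨n - 2, by omega⟩
  have e3 : n - 1 + u Y = b + 1 + u Y := by omega
  have e4 : n - 2 + u Y = b + u Y := by omega
  rw [e3, e4] at h1
  set U := u Y with hUdef
  set P := Y.prod
  set a := b + 1 + U with ha
  have ha5 : a ≤ 6 * K ^ 81 := by
    have q1 : n ≤ n * K := Nat.le_mul_of_pos_right _ (by omega)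
    have q2 : n * K ≤ (2 * K ^ 80) * K := Nat.mul_le_mul_right _ hn2.le
    have q3 : (2 * K ^ 80) * K = 2 * K ^ 81 := by ring
    have q4 : 2 * n * K = 2 * (n * K) := by ring
    omega
  have h1' : 2 * P * z ≤ a * a + 2 * a * z := by
    have : (b + U) ≤ a := by omega
    have := Nat.mul_le_mul_left a this
    omega
  have h5 : a * a ≤ 36 * K ^ 162 := by
    calc a * a ≤ (6 * K ^ 81) * (6 * K ^ 81) := Nat.mul_le_mul ha5 ha5
      _ = 36 * K ^ 162 := by ring
  have h6 : 2 * a * z ≤ 12 * K ^ 81 * z := Nat.mul_le_mul_right _ (by omega)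
  omega

/-- The bound contradicts large sizes. -/
theorem big_contra {K P z : ℕ} (hK : 37 ≤ K) (h : 2 * P * z ≤ 36 * K ^ 162 + 12 * K ^ 81 * z)
    (h1 : K ^ 82 ≤ P) (h2 : K ^ 163 ≤ P * z) : False := by
  have q1 : 12 * K ^ 81 * z ≤ K ^ 82 * z := by
    apply Nat.mul_le_mul_right
    calc 12 * K ^ 81 ≤ K * K ^ 81 := Nat.mul_le_mul_right _ (by omega)
      _ = K ^ 82 := by ring
  have q2 : K ^ 82 * z ≤ P * z := Nat.mul_le_mul_right _ h1
  have q3 : 36 * K ^ 162 < K ^ 163 := by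
    calc 36 * K ^ 162 < K * K ^ 162 := Nat.mul_lt_mul_of_pos_right (by omega) (by positivity)
      _ = K ^ 163 := by ring
  have q4 : 2 * P * z = P * z + P * z := by ring
  omega

/-- The possible shapes and sizes for large `K` and `n < 2 K ^ 80`. -/
theorem cases {K n a x b y : ℕ} (hK : 37 ≤ K) (hn : 3 ≤ n) (hn2 : n < 2 * K ^ 80)
    (h : RR a x b y ∈ Sol n) (hc : a + b < K) (hb : 1 ≤ b) (hy : 2 ≤ y)
    (hx : (a = 0 ∧ x = 0) ∨ (1 ≤ a ∧ 2 ≤ x ∧ x < y)) :
    (∃ c z w, c < K ∧ z < K ^ 60 ∧ w ::ₘ Multiset.replicate c z = RR a x b y) ∨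
    (b = 2 ∧ 1 ≤ a ∧ 2 ≤ x ∧ x < y ∧ x < K ^ 45 ∧ y ≤ 25 * n ^ 4) ∨
    (x < K ^ 33 ∧ y < K ^ 43) ∨ (x < K ^ 18 ∧ y < K ^ 55) := by
  have hKpos : 0 < K := by omega
  -- the largest entry
  have hcons : RR a x b y = y ::ₘ RR a x (b - 1) y := by
    obtain ⟨b', rfl⟩ : ∃ b', b = b' + 1 := ⟨b - 1, by omega⟩
    simp only [RR, Nat.add_sub_cancel, Multiset.replicate_succ]
    rw [Multiset.add_cons]
  have hS : y ::ₘ RR a x (b - 1) y ∈ Sol n := by rw [← hcons]; exact h
  have hle : ∀ w ∈ RR a x (b - 1) y, w ≤ y := by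
    intro w hw
    rw [RR, Multiset.mem_add] at hw
    rcases hw with h1 | h1
    · have h3 := Multiset.eq_of_mem_replicate h1
      rcases hx with ⟨h4, h5⟩ | h4
      · rw [h4] at h1; simp at h1
      · omega
    · exact (Multiset.eq_of_mem_replicate h1).le
  have hB := bnd (by omega) hn hn2 hS hle (by rw [RR_card]; omega)
  have hcard := (main_facts hn hS).2.2.1
  rw [RR_card] at hcard
  rw [RR_prod] at hB
  have pw : ∀ {i j : ℕ}, i ≤ j → K ^ i ≤ K ^ j := fun hij => Nat.pow_le_pow_right hKpos hij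
  rcases Nat.lt_or_ge b 2 with hb2 | hb2
  · -- b = 1
    have hb1 : b = 1 := by omega
    subst hb1
    obtain ⟨ha, hx2, hxy⟩ : 1 ≤ a ∧ 2 ≤ x ∧ x < y := by
      rcases hx with h1 | h1
      · omega
      · exact h1
    left
    refine ⟨a, x, y, by omega, ?_, ?_⟩
    · by_contra hge
      push Not at hge
      have hxa : x ^ 2 ≤ x ^ a := Nat.pow_le_pow_right (by omega) (by omega)
      have hx120 : K ^ 120 ≤ x ^ 2 := by
        calc K ^ 120 = (K ^ 60) ^ 2 := by ring
          _ ≤ x ^ 2 := Nat.pow_le_pow_left hge 2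
      refine big_contra hK hB ?_ ?_
      · calc K ^ 82 ≤ K ^ 120 := pw (by norm_num)
          _ ≤ x ^ a := hx120.trans hxa
          _ = x ^ a * y ^ (1 - 1) := by simp
      · calc K ^ 163 ≤ K ^ 120 * K ^ 60 := by rw [← pow_add]; exact pw (by norm_num)
          _ ≤ x ^ a * y := Nat.mul_le_mul (hx120.trans hxa) (by omega)
          _ = x ^ a * y ^ (1 - 1) * y := by simp
    · rw [RR, Multiset.replicate_one, ← Multiset.singleton_add, add_comm]
  have hb1 : y ^ 1 ≤ y ^ (b - 1) := Nat.pow_le_pow_right (by omega) (by omega)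
  rw [pow_one] at hb1
  rcases Nat.lt_or_ge b 3 with hb3 | hb3
  · -- b = 2
    have hb2' : b = 2 := by omega
    subst hb2'
    obtain ⟨ha, hx2, hxy⟩ : 1 ≤ a ∧ 2 ≤ x ∧ x < y := by
      rcases hx with h1 | h1
      · omega
      · exact h1
    rcases Nat.lt_or_ge x (K ^ 45) with hx45 | hx45
    · right; left
      exact ⟨rfl, ha, hx2, hxy, hx45, (crude hn hS hle).2⟩
    · rcases Nat.lt_or_ge a 2 with ha2 | ha2
      · have ha1 : a = 1 := by omega
        subst ha1
        left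
        refine ⟨2, y, x, by omega, ?_, ?_⟩
        · by_contra hge
          push Not at hge
          refine big_contra hK hB ?_ ?_
          · calc K ^ 82 ≤ K ^ 45 * K ^ 60 := by rw [← pow_add]; exact pw (by norm_num)
              _ ≤ x * y := Nat.mul_le_mul hx45 hge
              _ = x ^ 1 * y ^ (2 - 1) := by simp
          · calc K ^ 163 ≤ K ^ 45 * K ^ 60 * K ^ 60 := by
                  rw [← pow_add, ← pow_add]; exact pw (by norm_num)
              _ ≤ x * y * y := Nat.mul_le_mul (Nat.mul_le_mul hx45 hge) hge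
              _ = x ^ 1 * y ^ (2 - 1) * y := by simp
        · rw [RR, Multiset.replicate_one, Multiset.singleton_add]
      · exfalso
        have hxa : x ^ 2 ≤ x ^ a := Nat.pow_le_pow_right (by omega) ha2
        have hx90 : K ^ 90 ≤ x ^ 2 := by
          calc K ^ 90 = (K ^ 45) ^ 2 := by ring
            _ ≤ x ^ 2 := Nat.pow_le_pow_left hx45 2
        refine big_contra hK hB ?_ ?_
        · calc K ^ 82 ≤ K ^ 90 * K ^ 45 := by rw [← pow_add]; exact pw (by norm_num)
            _ ≤ x ^ a * y ^ (2 - 1) := Nat.mul_le_mul (hx90.trans hxa) (by simp; omega)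
        · calc K ^ 163 ≤ K ^ 90 * K ^ 45 * K ^ 45 := by
                rw [← pow_add, ← pow_add]; exact pw (by norm_num)
            _ ≤ x ^ a * y ^ (2 - 1) * y :=
              Nat.mul_le_mul (Nat.mul_le_mul (hx90.trans hxa) (by simp; omega)) (by omega)
  · -- b ≥ 3
    have hb2'' : y ^ 2 ≤ y ^ (b - 1) := Nat.pow_le_pow_right (by omega) (by omega)
    have hxpos : 1 ≤ x ^ a := by
      rcases hx with ⟨h1, h2⟩ | h1
      · rw [h1]; simp
      · exact Nat.one_le_pow _ _ (by omega)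
    have hP : y ^ 2 ≤ x ^ a * y ^ (b - 1) := by
      calc y ^ 2 = 1 * y ^ 2 := by ring
        _ ≤ _ := Nat.mul_le_mul hxpos hb2''
    have hy55 : y < K ^ 55 := by
      by_contra hge
      push Not at hge
      have h110 : K ^ 110 ≤ y ^ 2 := by
        calc K ^ 110 = (K ^ 55) ^ 2 := by ring
          _ ≤ y ^ 2 := Nat.pow_le_pow_left hge 2
      refine big_contra hK hB ?_ ?_
      · exact (pw (by norm_num)).trans (h110.trans hP)
      · calc K ^ 163 ≤ K ^ 110 * K ^ 55 := by rw [← pow_add]; exact pw (by norm_num)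
          _ ≤ _ := Nat.mul_le_mul (h110.trans hP) hge
    rcases hx with ⟨h1, h2⟩ | ⟨ha, hx2, hxy⟩
    · right; right; right
      exact ⟨by rw [h2]; positivity, hy55⟩
    rcases Nat.lt_or_ge a 2 with ha2 | ha2
    · have ha1 : a = 1 := by omega
      subst ha1
      left
      refine ⟨b, y, x, by omega, ?_, ?_⟩
      · exact lt_of_lt_of_le hy55 (pw (by norm_num))
      · rw [RR, Multiset.replicate_one, Multiset.singleton_add]
    · have hxa : x ^ 2 ≤ x ^ a := Nat.pow_le_pow_right (by omega) ha2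
      have hPP : x ^ 2 * y ^ 2 ≤ x ^ a * y ^ (b - 1) := Nat.mul_le_mul hxa hb2''
      right; right
      have hx33 : x < K ^ 33 := by
        by_contra hge
        push Not at hge
        have g1 : K ^ 66 ≤ x ^ 2 := by
          calc K ^ 66 = (K ^ 33) ^ 2 := by ring
            _ ≤ x ^ 2 := Nat.pow_le_pow_left hge 2
        have g2 : K ^ 66 ≤ y ^ 2 := by
          calc K ^ 66 = (K ^ 33) ^ 2 := by ring
            _ ≤ y ^ 2 := Nat.pow_le_pow_left (by omega) 2
        have g3 : K ^ 66 * K ^ 66 ≤ x ^ a * y ^ (b - 1) := (Nat.mul_le_mul g1 g2).trans hPP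
        refine big_contra hK hB ?_ ?_
        · calc K ^ 82 ≤ K ^ 66 * K ^ 66 := by rw [← pow_add]; exact pw (by norm_num)
            _ ≤ _ := g3
        · calc K ^ 163 ≤ K ^ 66 * K ^ 66 * K ^ 33 := by
                rw [← pow_add, ← pow_add]; exact pw (by norm_num)
            _ ≤ _ := Nat.mul_le_mul g3 (by omega)
      rcases Nat.lt_or_ge y (K ^ 43) with hy43 | hy43
      · left; exact ⟨hx33, hy43⟩
      · right
        refine ⟨?_, hy55⟩
        by_contra hge
        push Not at hge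
        have g1 : K ^ 36 ≤ x ^ 2 := by
          calc K ^ 36 = (K ^ 18) ^ 2 := by ring
            _ ≤ x ^ 2 := Nat.pow_le_pow_left hge 2
        have g2 : K ^ 86 ≤ y ^ 2 := by
          calc K ^ 86 = (K ^ 43) ^ 2 := by ring
            _ ≤ y ^ 2 := Nat.pow_le_pow_left hy43 2
        have g3 : K ^ 36 * K ^ 86 ≤ x ^ a * y ^ (b - 1) := (Nat.mul_le_mul g1 g2).trans hPP
        refine big_contra hK hB ?_ ?_
        · calc K ^ 82 ≤ K ^ 36 * K ^ 86 := by rw [← pow_add]; exact pw (by norm_num)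
            _ ≤ _ := g3
        · calc K ^ 163 ≤ K ^ 36 * K ^ 86 * K ^ 43 := by
                rw [← pow_add, ← pow_add]; exact pw (by norm_num)
            _ ≤ _ := Nat.mul_le_mul g3 hy43

/-- Solutions with `c` equal entries `z` and one more entry give a divisor of `qq`. -/
theorem typeI {n w c z : ℕ} (hn : 3 ≤ n) (h : w ::ₘ Multiset.replicate c z ∈ Sol n) :
    ∃ D ∈ (qq (Multiset.replicate c z)).divisors,
      n = (Multiset.replicate c z).prod - D + 1 - u (Multiset.replicate c z) := by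
  set Y := Multiset.replicate c z with hY'
  obtain ⟨h1, h2, h3, -⟩ := main_facts hn h
  obtain ⟨hz2, hY⟩ := h.1.of_cons
  obtain ⟨b, hb⟩ : ∃ b, n = b + 2 := ⟨n - 2, by omega⟩
  have e3 : n - 1 + u Y = b + 1 + u Y := by omega
  have e4 : n - 2 + u Y = b + u Y := by omega
  rw [e3, e4] at h1
  obtain ⟨D, hD⟩ : ∃ D, Y.prod = b + 1 + u Y + D := ⟨Y.prod - (b + 1 + u Y), by omega⟩
  have hD1 : 1 ≤ D := by omega
  have k1 : 2 * D * w + v Y = (b + 1 + u Y) * (b + u Y) := by
    rw [hD] at h1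
    nlinarith
  have k2 : qq Y = D * (2 * w + (2 * (b + u Y) + 1 + D)) := by
    unfold qq
    rw [hD]
    have e5 : b + 1 + u Y + D - 1 = b + u Y + D := by omega
    rw [e5]
    have k3 : (b + 1 + u Y + D) * (b + u Y + D) =
        D * (2 * w + (2 * (b + u Y) + 1 + D)) + v Y := by nlinarith
    omega
  refine ⟨D, ?_, by omega⟩
  rw [Nat.mem_divisors]
  refine ⟨⟨_, k2⟩, ?_⟩
  rw [k2]
  apply Nat.mul_ne_zero (by omega) (by omega)

/-- The conic for solutions with exactly two entries `y`. -/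
theorem conic {n a x y : ℕ} (hn : 3 ≤ n) (h : RR a x 2 y ∈ Sol n) (hx : 1 ≤ x) (hy : 1 ≤ y) :
    ∃ s : ℤ, 1 ≤ s ∧ s * (s - 1) =
      (2 * (x : ℤ) ^ a + 2) * (y : ℤ) ^ 2 - 2 * y + (a * (x * (x - 1) : ℤ)) := by
  have e := h.2.2
  rw [RR_prod, RR_v] at e
  refine ⟨((n + u (RR a x 2 y) : ℕ) : ℤ), by omega, ?_⟩
  obtain ⟨s, hs⟩ : ∃ s, n + u (RR a x 2 y) = s + 1 := ⟨n + u (RR a x 2 y) - 1, by omega⟩
  rw [hs] at e ⊢
  obtain ⟨x', rfl⟩ : ∃ x', x = x' + 1 := ⟨x - 1, by omega⟩
  obtain ⟨y', rfl⟩ : ∃ y', y = y' + 1 := ⟨y - 1, by omega⟩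
  simp only [Nat.add_sub_cancel] at e
  have e' : (2 * (((x' : ℤ) + 1) ^ a * ((y' : ℤ) + 1) ^ 2) + (a * (((x' : ℤ) + 1) * x') +
      2 * (((y' : ℤ) + 1) * y'))) = ((s : ℤ) + 1) * s := by exact_mod_cast e
  push_cast
  linear_combination -e'

end Pool.Agent.X4.DS
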