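import Pool.Agent.X4.DS.Cases
import Pool.Agent.X34.S2.Tuple

set_option autoImplicit false

/-! Few `n` have a solution with at most two distinct entries larger than `1`. -/

namespace Pool.Agent.X4.DS

open Pool.Agent.X34.S2

/-- There is a solution with at most two distinct entries larger than `1`. -/
def Bad (n : ℕ) : Prop := 3 ≤ n ∧ ∃ Y ∈ Sol n, Y.toFinset.card ≤ 2

theorem qq_le {Y : Multiset ℕ} {K : ℕ} (h : Y.prod ≤ K ^ 641) : qq Y ≤ K ^ 1282 := by
  unfold qq
  calc Y.prod * (Y.prod - 1) - v Y ≤ Y.prod * (Y.prod - 1) := Nat.sub_le _ _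
    _ ≤ K ^ 641 * K ^ 641 := Nat.mul_le_mul h ((Nat.sub_le _ _).trans h)
    _ = K ^ 1282 := by rw [← pow_add]

open Classical in
/-- The possible `y` for given `a`, `x`. -/
noncomputable def Ys (K a x : ℕ) : Finset ℕ :=
  (Finset.range (K ^ 321)).filter (fun y => 1 ≤ a ∧ 2 ≤ x ∧ x < y ∧ ∃ n, 3 ≤ n ∧ RR a x 2 y ∈ Sol n)

theorem Ys_card {K a x : ℕ} (hK : 0 < K) (hK2 : K ^ 321 < 2 ^ K) (ha : a < K) (hx : x < K ^ 45) :
    (Ys K a x).card ≤ 2 * (K * (2 * K ^ 31)) := by
  classical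
  rcases (Ys K a x).eq_empty_or_nonempty with h0 | ⟨y0, hy0⟩
  · rw [h0]; simp
  obtain ⟨-, ha1, hx2, -, -⟩ := Finset.mem_filter.mp hy0
  have hc1 : (1 : ℤ) ≤ (a : ℤ) * (x * (x - 1) : ℤ) := by
    have h1 : (1 : ℤ) ≤ a := by exact_mod_cast ha1
    have h2 : (2 : ℤ) ≤ x := by exact_mod_cast hx2
    have h3 : (1 : ℤ) ≤ (x : ℤ) * (x - 1) := by nlinarith
    nlinarith
  have hA : (2 : ℤ) ≤ 2 * (x : ℤ) ^ a + 2 := by
    have : (0 : ℤ) ≤ (x : ℤ) ^ a := by positivity
    linarith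
  have hg : 4 * ((a : ℤ) * (x * (x - 1) : ℤ)) + 1 ≤ ((2 * K ^ 31 : ℕ) : ℤ) ^ 3 := by
    have h1 : a * (x * (x - 1)) ≤ K * (K ^ 45 * K ^ 45) :=
      Nat.mul_le_mul ha.le (Nat.mul_le_mul hx.le ((Nat.sub_le _ _).trans hx.le))
    have h2 : K * (K ^ 45 * K ^ 45) = K ^ 91 := by ring
    have h3 : K ^ 91 ≤ K ^ 93 := Nat.pow_le_pow_right hK (by norm_num)
    have h4 : 1 ≤ K ^ 93 := Nat.one_le_pow _ _ hK
    have h5 : (2 * K ^ 31) ^ 3 = 8 * K ^ 93 := by ring
    have h6 : 4 * (a * (x * (x - 1))) + 1 ≤ (2 * K ^ 31) ^ 3 := by omega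
    have h7 : ((a * (x * (x - 1)) : ℕ) : ℤ) = (a : ℤ) * (x * (x - 1) : ℤ) := by
      push_cast [Nat.cast_sub (by omega : 1 ≤ x)]
      ring
    rw [← h7]
    exact_mod_cast h6
  refine count hA hc1 (2 * K ^ 31) K hg (Ys K a x) ?_ ?_ ?_
  · intro y hy
    obtain ⟨-, -, -, h1, -⟩ := Finset.mem_filter.mp hy
    omega
  · intro y hy
    obtain ⟨h0, -, -, h1, -⟩ := Finset.mem_filter.mp hy
    rw [Finset.mem_range] at h0
    exact Nat.log_lt_of_lt_pow (by omega) (h0.trans hK2)
  · intro y hy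
    obtain ⟨-, -, -, h1, n, hn, hS⟩ := Finset.mem_filter.mp hy
    exact conic hn hS (by omega) (by omega)

theorem bad_count : ∃ K0 : ℕ, ∀ K ≥ K0, ∃ F : Finset ℕ, F.card ≤ 8 * K ^ 78 ∧
    ∀ n, Bad n → n < 2 * K ^ 80 → n ∈ F := by
  classical
  obtain ⟨K1, hK1⟩ := divisors_le 1282
  obtain ⟨K2, hK2⟩ := exists_pow_lt 321
  obtain ⟨K3, hK3⟩ := card_lt
  refine ⟨K1 + K2 + K3 + 192000, fun K hK => ?_⟩
  have hKpos : 0 < K := by omega
  have hdiv := hK1 K (by omega)
  have h321 := hK2 K (by omega)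
  have hcard := hK3 K (by omega)
  set F1 : Finset ℕ := ((Finset.range K ×ˢ Finset.range (K ^ 60)).filter
    (fun p => (Multiset.replicate p.1 p.2).prod ≤ K ^ 641)).biUnion
    (fun p => (qq (Multiset.replicate p.1 p.2)).divisors.image
      (fun D => (Multiset.replicate p.1 p.2).prod - D + 1 - u (Multiset.replicate p.1 p.2))) with hF1
  set F2 : Finset ℕ := (Finset.range K ×ˢ Finset.range (K ^ 45)).biUnion
    (fun p => (Ys K p.1 p.2).image (fun y => nOf (RR p.1 p.2 2 y))) with hF2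
  set F3 : Finset ℕ := ((Finset.range K ×ˢ Finset.range K) ×ˢ
    (Finset.range (K ^ 33) ×ˢ Finset.range (K ^ 43))).image
    (fun p => nOf (RR p.1.1 p.2.1 p.1.2 p.2.2)) with hF3
  set F4 : Finset ℕ := ((Finset.range K ×ˢ Finset.range K) ×ˢ
    (Finset.range (K ^ 18) ×ˢ Finset.range (K ^ 55))).image
    (fun p => nOf (RR p.1.1 p.2.1 p.1.2 p.2.2)) with hF4
  refine ⟨F1 ∪ F2 ∪ F3 ∪ F4, ?_, ?_⟩
  · have c1 : F1.card ≤ K * K ^ 60 * K := by
      refine (Finset.card_biUnion_le_card_mul _ _ K ?_).trans ?_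
      · intro p hp
        refine Finset.card_image_le.trans (hdiv _ (qq_le ?_))
        exact (Finset.mem_filter.mp hp).2
      · apply Nat.mul_le_mul_right
        refine (Finset.card_filter_le _ _).trans ?_
        rw [Finset.card_product, Finset.card_range, Finset.card_range]
    have c2 : F2.card ≤ K * K ^ 45 * (2 * (K * (2 * K ^ 31))) := by
      refine (Finset.card_biUnion_le_card_mul _ _ (2 * (K * (2 * K ^ 31))) ?_).trans ?_
      · intro p hp
        rw [Finset.mem_product, Finset.mem_range, Finset.mem_range] at hp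
        exact Finset.card_image_le.trans (Ys_card hKpos h321 hp.1 hp.2)
      · rw [Finset.card_product, Finset.card_range, Finset.card_range]
    have c3 : F3.card ≤ K * K * (K ^ 33 * K ^ 43) := by
      refine Finset.card_image_le.trans ?_
      simp only [Finset.card_product, Finset.card_range]
      exact le_rfl
    have c4 : F4.card ≤ K * K * (K ^ 18 * K ^ 55) := by
      refine Finset.card_image_le.trans ?_
      simp only [Finset.card_product, Finset.card_range]
      exact le_rfl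
    have d1 : K * K ^ 60 * K = K ^ 62 := by ring
    have d2 : K * K ^ 45 * (2 * (K * (2 * K ^ 31))) = 4 * K ^ 78 := by ring
    have d3 : K * K * (K ^ 33 * K ^ 43) = K ^ 78 := by ring
    have d4 : K * K * (K ^ 18 * K ^ 55) = K ^ 75 := by ring
    have p1 : K ^ 62 ≤ K ^ 78 := Nat.pow_le_pow_right hKpos (by norm_num)
    have p2 : K ^ 75 ≤ K ^ 78 := Nat.pow_le_pow_right hKpos (by norm_num)
    have q1 := Finset.card_union_le (F1 ∪ F2 ∪ F3) F4
    have q2 := Finset.card_union_le (F1 ∪ F2) F3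
    have q3 := Finset.card_union_le F1 F2
    omega
  · rintro n ⟨hn, Y, hY, h2⟩ hn2
    have hcY := hcard n hn hn2 Y hY
    obtain ⟨a, x, b, y, rfl, hb, hy, hx⟩ := shape hY.1 (Sol_ne_zero hn hY) h2
    rw [RR_card] at hcY
    have hc := cases (by omega : 37 ≤ K) hn hn2 hY hcY hb hy hx
    simp only [Finset.mem_union]
    rcases hc with ⟨c, z, w, hcK, hz, hw⟩ | ⟨hb2, ha, hx2, hxy, hx45, hyn⟩ | ⟨hx33, hy43⟩ |
      ⟨hx18, hy55⟩
    · left; left; left
      rw [← hw] at hY
      obtain ⟨D, hD, hnD⟩ := typeI hn hY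
      rw [hF1, Finset.mem_biUnion]
      refine ⟨(c, z), ?_, ?_⟩
      · rw [Finset.mem_filter, Finset.mem_product, Finset.mem_range, Finset.mem_range]
        refine ⟨⟨hcK, hz⟩, ?_⟩
        have h4 := Sol_prod_le hn hY
        have h5 : n ^ 8 ≤ (2 * K ^ 80) ^ 8 := Nat.pow_le_pow_left hn2.le 8
        have h6 : (2 * K ^ 80) ^ 8 = 256 * K ^ 640 := by
          rw [mul_pow, ← pow_mul]; norm_num
        have h7 : 192000 * K ^ 640 ≤ K * K ^ 640 := Nat.mul_le_mul_right _ (by omega)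
        have h8 : K * K ^ 640 = K ^ 641 := by rw [← pow_succ']
        have h9 : (Multiset.replicate c z).prod ≤ (w ::ₘ Multiset.replicate c z).prod := by
          rw [Multiset.prod_cons]
          exact Nat.le_mul_of_pos_left _ (by have := hY.1 w (Multiset.mem_cons_self _ _); omega)
        show (Multiset.replicate c z).prod ≤ K ^ 641
        omega
      · rw [Finset.mem_image]
        exact ⟨D, hD, hnD.symm⟩
    · left; left; right
      subst hb2
      rw [hF2, Finset.mem_biUnion]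
      refine ⟨(a, x), ?_, ?_⟩
      · rw [Finset.mem_product, Finset.mem_range, Finset.mem_range]
        exact ⟨by omega, hx45⟩
      · rw [Finset.mem_image]
        refine ⟨y, ?_, nOf_eq hn hY⟩
        unfold Ys
        rw [Finset.mem_filter, Finset.mem_range]
        refine ⟨?_, ha, hx2, hxy, n, hn, hY⟩
        have h5 : n ^ 4 < (2 * K ^ 80) ^ 4 := Nat.pow_lt_pow_left hn2 (by norm_num)
        have h6 : (2 * K ^ 80) ^ 4 = 16 * K ^ 320 := by
          rw [mul_pow, ← pow_mul]; norm_num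
        have h7 : 400 * K ^ 320 ≤ K * K ^ 320 := Nat.mul_le_mul_right _ (by omega)
        have h8 : K * K ^ 320 = K ^ 321 := by rw [← pow_succ']
        omega
    · left; right
      rw [hF3, Finset.mem_image]
      refine ⟨((a, b), (x, y)), ?_, nOf_eq hn hY⟩
      simp only [Finset.mem_product, Finset.mem_range]
      exact ⟨⟨by omega, by omega⟩, hx33, hy43⟩
    · right
      rw [hF4, Finset.mem_image]
      refine ⟨((a, b), (x, y)), ?_, nOf_eq hn hY⟩
      simp only [Finset.mem_product, Finset.mem_range]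
      exact ⟨⟨by omega, by omega⟩, hx18, hy55⟩

/-- The standard solution. -/
theorem std_sol {n : ℕ} (hn : 3 ≤ n) :
    (2 ::ₘ n ::ₘ (n * (3 * n - 5) / 2) ::ₘ (0 : Multiset ℕ)) ∈ Sol n := by
  obtain ⟨m, rfl⟩ : ∃ m, n = m + 3 := ⟨n - 3, by omega⟩
  have e0 : 3 * (m + 3) - 5 = 3 * m + 4 := by omega
  rw [e0]
  obtain ⟨w, hw⟩ : ∃ w, (m + 3) * (3 * m + 4) = 2 * w := by
    rcases Nat.even_or_odd' m with ⟨t, rfl | rfl⟩
    · exact ⟨(2 * t + 3) * (3 * t + 2), by ring⟩
    · exact ⟨(t + 2) * (6 * t + 7), by ring⟩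
  rw [hw, Nat.mul_div_cancel_left w (by norm_num)]
  have hw3 : 2 ≤ w := by nlinarith
  refine ⟨?_, by simp, ?_⟩
  · intro y hy
    simp only [Multiset.mem_cons, Multiset.notMem_zero, or_false] at hy
    omega
  · obtain ⟨w', rfl⟩ : ∃ w', w = w' + 1 := ⟨w - 1, by omega⟩
    simp only [Multiset.prod_cons, Multiset.prod_zero, v_cons, u_cons, v_zero, u_zero]
    have e1 : m + 3 - 1 = m + 2 := by omega
    have e2 : w' + 1 - 1 = w' := by omega
    have e3 : m + 3 + (2 - 1 + (m + 3 - 1 + (w' + 1 - 1 + 0))) = 2 * m + w' + 6 := by omega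
    have e4 : m + 3 + (2 - 1 + (m + 3 - 1 + (w' + 1 - 1 + 0))) - 1 = 2 * m + w' + 5 := by omega
    rw [e4, e3, e1, e2]
    nlinarith

/-- Distinct entries of the solution with its ones. -/
theorem card_toFinset_ge {Y : Multiset ℕ} (hB : Big Y) {k : ℕ} (hk : 1 ≤ k) :
    Y.toFinset.card + 1 ≤ (Y + Multiset.replicate k 1).toFinset.card := by
  classical
  have h1 : 1 ∉ Y.toFinset := by
    rw [Multiset.mem_toFinset]
    intro h
    have := hB 1 h
    omega
  rw [← Finset.card_insert_of_notMem h1]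
  apply Finset.card_le_card
  intro t ht
  rw [Finset.mem_insert, Multiset.mem_toFinset] at ht
  rw [Multiset.mem_toFinset, Multiset.mem_add]
  rcases ht with rfl | ht
  · right; exact Multiset.mem_replicate.mpr ⟨by omega, rfl⟩
  · left; exact ht

/-- Multisets: some solution has at most four distinct entries. -/
theorem exists_four {n : ℕ} (hn : 3 ≤ n) : ∃ s ∈ Mul n, s.toFinset.card ≤ 4 := by
  classical
  refine ⟨_, (Mul_image (by omega : 1 ≤ n)) ▸ Set.mem_image_of_mem _ (std_sol hn), ?_⟩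
  have h1 : (2 ::ₘ n ::ₘ (n * (3 * n - 5) / 2) ::ₘ (0 : Multiset ℕ) +
      Multiset.replicate (n - (2 ::ₘ n ::ₘ (n * (3 * n - 5) / 2) ::ₘ (0 : Multiset ℕ)).card) 1).toFinset
      ⊆ {1, 2, n, n * (3 * n - 5) / 2} := by
    intro t ht
    rw [Multiset.mem_toFinset, Multiset.mem_add] at ht
    simp only [Finset.mem_insert, Finset.mem_singleton]
    rcases ht with h | h
    · simp only [Multiset.mem_cons, Multiset.notMem_zero, or_false] at h
      tauto
    · left; exact Multiset.eq_of_mem_replicate h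
  exact (Finset.card_le_card h1).trans Finset.card_le_four

/-- Multisets: if `n` is not bad and not small, every solution has at least four distinct entries. -/
theorem four_le {K n : ℕ} (hcard : ∀ n : ℕ, 3 ≤ n → n < 2 * K ^ 80 → ∀ Y ∈ Sol n, Y.card < K)
    (hn : 3 ≤ n) (hnK : K ≤ n) (hn2 : n < 2 * K ^ 80) (hbad : ¬ Bad n) {s : Multiset ℕ}
    (hs : s ∈ Mul n) : 4 ≤ s.toFinset.card := by
  rw [← Mul_image (by omega : 1 ≤ n)] at hs
  obtain ⟨Y, hY, rfl⟩ := hs
  have h1 := hcard n hn hn2 Y hY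
  have h2 := card_toFinset_ge hY.1 (by omega : 1 ≤ n - Y.card)
  by_contra h
  apply hbad
  refine ⟨hn, Y, hY, ?_⟩
  simp only at h
  omega

end Pool.Agent.X4.DS
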